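import Pool.Agent.H159.ZD.Cov

/-! Mean of the absolute value of `log |F|` over the unit circle. -/

set_option autoImplicit false

open MeasureTheory Real Finset Polynomial

namespace Pool.Agent.H159.ZD

noncomputable section

variable {ι : Type*} [Fintype ι]

theorem circleIntegrable_of_cont {g : ℂ → ℝ} (hg : Continuous g) : CircleIntegrable g 0 1 := by
  apply ContinuousOn.circleIntegrable (by norm_num)
  exact hg.continuousOn

/-- Cauchy–Schwarz -/
theorem sq_avg_le {g : ℂ → ℝ} (hg : Continuous g) :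
    (circleAverage g 0 1) ^ 2 ≤ circleAverage (fun z => g z ^ 2) 0 1 := by
  set m := circleAverage g 0 1 with hm
  have h0 : 0 ≤ circleAverage (fun z => (g z - m) ^ 2) 0 1 :=
    circleAverage_nonneg_of_nonneg (fun z _ => sq_nonneg _)
  have e : (fun z => (g z - m) ^ 2) = fun z => g z ^ 2 + ((-2 * m) * g z + m ^ 2) := by
    funext z; ring
  rw [e, circleAverage_fun_add (circleIntegrable_of_cont (by fun_prop))
    (circleIntegrable_of_cont (by fun_prop)),
    circleAverage_fun_add (circleIntegrable_of_cont (by fun_prop))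
    (circleIntegrable_of_cont (by fun_prop))] at h0
  have e2 : circleAverage (fun z => (-2 * m) * g z) 0 1 = (-2 * m) * m := by
    have := circleAverage_fun_smul (a := (-2 * m)) (f := g) (c := (0:ℂ)) (R := 1)
    simpa [smul_eq_mul, hm] using this
  rw [e2, circleAverage_const] at h0
  linarith

/-- truncated logarithm of the product -/
def PN (β : ι → ℂ) (N : ℕ) : ℂ[X] :=
  ∑ k ∈ range (N + 1), C (-(∑ i, (starRingEnd ℂ (β i)) ^ k) / k) * X ^ k

theorem PN_coeff (β : ι → ℂ) (N k : ℕ) :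
    (PN β N).coeff k = if k ∈ range (N + 1) then -(∑ i, (starRingEnd ℂ (β i)) ^ k) / k else 0 := by
  unfold PN
  rw [finsetSum_coeff]
  simp_rw [coeff_C_mul, coeff_X_pow]
  simp

theorem PN_eval (β : ι → ℂ) (N : ℕ) (z : ℂ) :
    (PN β N).eval z = ∑ i, Complex.logTaylor (N + 1) (-(starRingEnd ℂ (β i) * z)) := by
  unfold PN Complex.logTaylor
  rw [eval_finsetSum, Finset.sum_comm]
  refine Finset.sum_congr rfl fun k _ => ?_
  simp only [eval_mul, eval_C, eval_pow, eval_X]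
  rw [← Finset.sum_neg_distrib, Finset.sum_div, Finset.sum_mul]
  refine Finset.sum_congr rfl fun i _ => ?_
  rw [neg_pow (starRingEnd ℂ (β i) * z), mul_pow]
  have : (-1 : ℂ) ^ (k + 1) * ((-1) ^ k * (starRingEnd ℂ (β i) ^ k * z ^ k)) =
      ((-1) ^ k * (-1) ^ k) * (-(starRingEnd ℂ (β i) ^ k * z ^ k)) := by
    rw [pow_succ]; ring
  rw [this, ← mul_pow]
  simp
  ring

theorem log_norm_sub (β z : ℂ) (hz : ‖z‖ = 1) :
    Real.log ‖z - β‖ = (Complex.log (1 + -(starRingEnd ℂ β * z))).re := by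
  rw [Complex.log_re]
  congr 1
  have h1 : z * starRingEnd ℂ z = 1 := by
    rw [Complex.mul_conj, Complex.normSq_eq_norm_sq, hz]; simp
  calc ‖z - β‖ = ‖starRingEnd ℂ z - starRingEnd ℂ β‖ := by
        rw [← map_sub, RCLike.norm_conj]
    _ = ‖z * (starRingEnd ℂ z - starRingEnd ℂ β)‖ := by rw [norm_mul, hz, one_mul]
    _ = ‖1 + -(starRingEnd ℂ β * z)‖ := by
        congr 1
        rw [mul_sub, h1]; ring

theorem log_sum_close (β : ι → ℂ) (ρ : ℝ) (hρ : ρ < 1) (hβ : ∀ i, ‖β i‖ ≤ ρ) (N : ℕ)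
    (z : ℂ) (hz : ‖z‖ = 1) :
    |∑ i, Real.log ‖z - β i‖| ≤
      ‖(PN β N).eval z‖ + Fintype.card ι * (ρ ^ (N + 1) * (1 - ρ)⁻¹ / (N + 1)) := by
  have h1 : |∑ i, Real.log ‖z - β i‖ - ((PN β N).eval z).re| ≤
      Fintype.card ι * (ρ ^ (N + 1) * (1 - ρ)⁻¹ / (N + 1)) := by
    rw [PN_eval, Complex.re_sum, ← Finset.sum_sub_distrib]
    refine (Finset.abs_sum_le_sum_abs _ _).trans ?_
    rw [← nsmul_eq_mul, ← Finset.card_univ, ← Finset.sum_const]
    refine Finset.sum_le_sum fun i _ => ?_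
    rw [log_norm_sub (β i) z hz, ← Complex.sub_re]
    refine (Complex.abs_re_le_norm _).trans ?_
    have hw : ‖-(starRingEnd ℂ (β i) * z)‖ = ‖β i‖ := by
      rw [norm_neg, norm_mul, RCLike.norm_conj, hz, mul_one]
    have h2 := Complex.norm_log_sub_logTaylor_le N (z := -(starRingEnd ℂ (β i) * z))
      (by rw [hw]; exact (hβ i).trans_lt hρ)
    rw [hw] at h2
    refine h2.trans ?_
    have h3 : 0 < 1 - ρ := by linarith
    have h4 : (0:ℝ) ≤ ‖β i‖ := norm_nonneg _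
    have h5 : 1 - ρ ≤ 1 - ‖β i‖ := by linarith [hβ i]
    have h6 : 0 ≤ ρ := h4.trans (hβ i)
    have h7 : 0 ≤ (1 - ‖β i‖)⁻¹ := inv_nonneg.2 (by linarith)
    have h8 : (0:ℝ) ≤ ρ ^ (N + 1) := by positivity
    gcongr
    exact hβ i
  have h2 := Complex.abs_re_le_norm ((PN β N).eval z)
  have h3 := abs_sub_abs_le_abs_sub (∑ i, Real.log ‖z - β i‖) ((PN β N).eval z).re
  linarith

theorem PN_avg_sq (β : ι → ℂ) (N : ℕ) (Q : ℝ)
    (hsum : ∀ T : Finset ℕ, ∑ k ∈ T, 1 / (k:ℝ) ^ 2 * ‖∑ i, (starRingEnd ℂ (β i)) ^ k‖ ^ 2 ≤ Q) :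
    circleAverage (fun z => ‖(PN β N).eval z‖ ^ 2) 0 1 ≤ Q := by
  rw [← Polynomial.sum_sq_norm_coeff_eq_circleAverage]
  refine le_trans ?_ (hsum (PN β N).support)
  refine Finset.sum_le_sum fun k _ => ?_
  rw [PN_coeff]
  split_ifs
  · rw [norm_div, norm_neg, div_pow, Complex.norm_natCast]
    apply le_of_eq; ring
  · rw [norm_zero]
    have : (0:ℝ) ≤ 1 / (k:ℝ) ^ 2 * ‖∑ i, (starRingEnd ℂ (β i)) ^ k‖ ^ 2 := by positivity
    simpa using this

theorem avg_abs_le (β : ι → ℂ) (ρ : ℝ) (h0 : 0 ≤ ρ) (hρ : ρ < 1) (hβ : ∀ i, ‖β i‖ ≤ ρ) (Q : ℝ)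
    (hsum : ∀ T : Finset ℕ, ∑ k ∈ T, 1 / (k:ℝ) ^ 2 * ‖∑ i, (starRingEnd ℂ (β i)) ^ k‖ ^ 2 ≤ Q) :
    circleAverage (fun z => |∑ i, Real.log ‖z - β i‖|) 0 1 ≤ √Q := by
  have hint : CircleIntegrable (fun z => |∑ i, Real.log ‖z - β i‖|) 0 1 := by
    apply CircleIntegrable.abs
    exact CircleIntegrable.fun_sum _ fun i _ => circleIntegrable_log_norm_sub_const 1
  have key : ∀ N : ℕ, circleAverage (fun z => |∑ i, Real.log ‖z - β i‖|) 0 1 ≤
      √Q + Fintype.card ι * (ρ ^ (N + 1) * (1 - ρ)⁻¹ / (N + 1)) := by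
    intro N
    have hc : Continuous fun z : ℂ => ‖(PN β N).eval z‖ := by fun_prop
    have h1 : circleAverage (fun z => |∑ i, Real.log ‖z - β i‖|) 0 1 ≤
        circleAverage (fun z => ‖(PN β N).eval z‖ +
          Fintype.card ι * (ρ ^ (N + 1) * (1 - ρ)⁻¹ / (N + 1))) 0 1 := by
      apply circleAverage_mono hint (circleIntegrable_of_cont (by fun_prop))
      intro z hz
      apply log_sum_close β ρ hρ hβ N z
      simpa using hz
    rw [circleAverage_fun_add (circleIntegrable_of_cont hc)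
      (circleIntegrable_of_cont continuous_const), circleAverage_const] at h1
    refine h1.trans (add_le_add_left ?_ _)
    apply Real.le_sqrt_of_sq_le
    exact (sq_avg_le hc).trans (PN_avg_sq β N Q hsum)
  have hlim : Filter.Tendsto (fun N : ℕ => √Q + Fintype.card ι *
      (ρ ^ (N + 1) * (1 - ρ)⁻¹ / (N + 1))) Filter.atTop (nhds (√Q + 0)) := by
    apply Filter.Tendsto.const_add
    have h1 : Filter.Tendsto (fun N : ℕ => ρ ^ (N + 1)) Filter.atTop (nhds 0) :=
      (tendsto_pow_atTop_nhds_zero_of_lt_one h0 hρ).comp (Filter.tendsto_add_atTop_nat 1)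
    have h2 : Filter.Tendsto (fun N : ℕ => 1 / ((N:ℝ) + 1)) Filter.atTop (nhds 0) :=
      tendsto_one_div_add_atTop_nhds_zero_nat
    have h3 := ((h1.mul_const ((1 - ρ)⁻¹)).mul h2).const_mul (Fintype.card ι : ℝ)
    simp only [zero_mul, mul_zero] at h3
    refine h3.congr fun N => ?_
    ring
  rw [add_zero] at hlim
  exact ge_of_tendsto' hlim key

end

end Pool.Agent.H159.ZD
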