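import Mathlib

/-! Variance of the counting error of a finite set of points of `[0, 1)`. -/

set_option autoImplicit false

open MeasureTheory Real Finset

namespace Pool.Agent.H159.ZD

noncomputable section

/-- step function with a jump at `x` -/
def stp (x t : ℝ) : ℝ := if x ≤ t then 1 else 0

theorem stp_mono (x : ℝ) : Monotone (stp x) := by
  intro s t h
  unfold stp
  split_ifs with h1 h2 h2
  · exact le_rfl
  · exact absurd (h1.trans h) h2
  · norm_num
  · exact le_rfl

theorem stp_int (x a b : ℝ) : IntervalIntegrable (stp x) volume a b :=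
  (stp_mono x).intervalIntegrable

theorem stp_mul_int (x a b : ℝ) (g : ℝ → ℝ) (hg : Continuous g) :
    IntervalIntegrable (fun t => stp x t * g t) volume a b :=
  (stp_int x a b).mul_continuousOn hg.continuousOn

/-- integral of a step function against a continuous function -/
theorem integral_stp_mul (x : ℝ) (h0 : 0 ≤ x) (h1 : x ≤ 1) (g : ℝ → ℝ) (hg : Continuous g) :
    ∫ t in (0:ℝ)..1, stp x t * g t = ∫ t in x..1, g t := by
  rw [← intervalIntegral.integral_add_adjacent_intervals (stp_mul_int x 0 x g hg)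
    (stp_mul_int x x 1 g hg)]
  have e1 : ∫ t in (0:ℝ)..x, stp x t * g t = ∫ t in (0:ℝ)..x, (0:ℝ) := by
    apply intervalIntegral.integral_congr_ae
    have : ∀ᵐ t : ℝ, t ≠ x := by
      rw [ae_iff]; simp
    filter_upwards [this] with t ht hm
    rw [Set.uIoc_of_le h0] at hm
    have : ¬ x ≤ t := fun h => ht (le_antisymm hm.2 h)
    simp [stp, this]
  have e2 : ∫ t in x..1, stp x t * g t = ∫ t in x..1, g t := by
    apply intervalIntegral.integral_congr
    intro t ht
    rw [Set.uIcc_of_le h1] at ht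
    simp [stp, ht.1]
  rw [e1, e2]
  simp

theorem integral_stp (x : ℝ) (h0 : 0 ≤ x) (h1 : x ≤ 1) :
    ∫ t in (0:ℝ)..1, stp x t = 1 - x := by
  have := integral_stp_mul x h0 h1 (fun _ => 1) continuous_const
  simpa using this

theorem integral_stp_id (x : ℝ) (h0 : 0 ≤ x) (h1 : x ≤ 1) :
    ∫ t in (0:ℝ)..1, stp x t * t = (1 - x ^ 2) / 2 := by
  have := integral_stp_mul x h0 h1 (fun t => t) continuous_id
  rw [this]
  simp [integral_id]

theorem stp_mul_stp (x y t : ℝ) : stp x t * stp y t = stp (max x y) t := by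
  unfold stp
  by_cases hx : x ≤ t <;> by_cases hy : y ≤ t <;> simp [hx, hy]

/-- centred counting error of one point -/
def cen (x t : ℝ) : ℝ := stp x t - t - (1 / 2 - x)

/-- `B₂(u) = u² - u + 1/6` -/
def B2 (u : ℝ) : ℝ := u ^ 2 - u + 1 / 6

theorem cen_int (x a b : ℝ) : IntervalIntegrable (cen x) volume a b :=
  ((stp_int x a b).sub (continuous_id.intervalIntegrable a b)).sub
    (continuous_const.intervalIntegrable a b)

theorem cen_mul_eq (x y t : ℝ) : cen x t * cen y t =
    stp (max x y) t - stp x t * t - stp y t * t - (1 / 2 - y) * stp x t - (1 / 2 - x) * stp y t +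
      (t ^ 2 + (1 - x - y) * t + (1 / 2 - x) * (1 / 2 - y)) := by
  rw [← stp_mul_stp]
  unfold cen
  ring

theorem integral_cen_mul (x y : ℝ) (hx0 : 0 ≤ x) (hx1 : x ≤ 1) (hy0 : 0 ≤ y) (hy1 : y ≤ 1) :
    ∫ t in (0:ℝ)..1, cen x t * cen y t = B2 |x - y| / 2 := by
  have hm0 : 0 ≤ max x y := le_max_of_le_left hx0
  have hm1 : max x y ≤ 1 := max_le hx1 hy1
  have i1 := stp_int (max x y) 0 1
  have i2 := stp_mul_int x 0 1 (fun t => t) continuous_id
  have i3 := stp_mul_int y 0 1 (fun t => t) continuous_id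
  have i4 := (stp_int x 0 1).const_mul (1 / 2 - y)
  have i5 := (stp_int y 0 1).const_mul (1 / 2 - x)
  have i6 : IntervalIntegrable (fun t : ℝ => t ^ 2 + (1 - x - y) * t + (1 / 2 - x) * (1 / 2 - y))
    volume 0 1 := (by fun_prop : Continuous fun t : ℝ =>
      t ^ 2 + (1 - x - y) * t + (1 / 2 - x) * (1 / 2 - y)).intervalIntegrable 0 1
  have e6 : ∫ t in (0:ℝ)..1, (t ^ 2 + (1 - x - y) * t + (1 / 2 - x) * (1 / 2 - y)) =
      1 / 3 + (1 - x - y) / 2 + (1 / 2 - x) * (1 / 2 - y) := by
    rw [intervalIntegral.integral_add, intervalIntegral.integral_add,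
      intervalIntegral.integral_const_mul]
    · simp [integral_id, integral_pow]
      ring
    · exact (continuous_pow 2).intervalIntegrable 0 1
    · exact (by fun_prop : Continuous fun t : ℝ => (1 - x - y) * t).intervalIntegrable 0 1
    · exact (by fun_prop : Continuous fun t : ℝ => t ^ 2 + (1 - x - y) * t).intervalIntegrable 0 1
    · exact continuous_const.intervalIntegrable 0 1
  simp_rw [cen_mul_eq]
  rw [intervalIntegral.integral_add ((((i1.sub i2).sub i3).sub i4).sub i5) i6,
    intervalIntegral.integral_sub (((i1.sub i2).sub i3).sub i4) i5,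
    intervalIntegral.integral_sub ((i1.sub i2).sub i3) i4,
    intervalIntegral.integral_sub (i1.sub i2) i3,
    intervalIntegral.integral_sub i1 i2, e6,
    intervalIntegral.integral_const_mul, intervalIntegral.integral_const_mul,
    integral_stp _ hm0 hm1, integral_stp _ hx0 hx1, integral_stp _ hy0 hy1,
    integral_stp_id _ hx0 hx1, integral_stp_id _ hy0 hy1]
  unfold B2
  rcases le_total x y with h | h
  · rw [max_eq_right h, abs_of_nonpos (by linarith)]; ring
  · rw [max_eq_left h, abs_of_nonneg (by linarith)]; ring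

variable {ι : Type*} [Fintype ι]

theorem integral_sum_cen_sq (x : ι → ℝ) (hx : ∀ i, 0 ≤ x i ∧ x i ≤ 1) :
    ∫ t in (0:ℝ)..1, (∑ i, cen (x i) t) ^ 2 = (∑ i, ∑ j, B2 |x i - x j|) / 2 := by
  have e : ∀ t, (∑ i, cen (x i) t) ^ 2 = ∑ i, ∑ j, cen (x i) t * cen (x j) t := by
    intro t
    rw [sq, Finset.sum_mul_sum]
  have hint : ∀ i j, IntervalIntegrable (fun t => cen (x i) t * cen (x j) t) volume 0 1 := by
    intro i j
    simp_rw [cen_mul_eq]
    refine IntervalIntegrable.add (IntervalIntegrable.sub (IntervalIntegrable.sub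
      (IntervalIntegrable.sub (IntervalIntegrable.sub (stp_int _ 0 1)
        (stp_mul_int _ 0 1 (fun t => t) continuous_id))
        (stp_mul_int _ 0 1 (fun t => t) continuous_id)) ((stp_int _ 0 1).const_mul _))
        ((stp_int _ 0 1).const_mul _)) ?_
    exact (by fun_prop : Continuous fun t : ℝ =>
      t ^ 2 + (1 - x i - x j) * t + (1 / 2 - x i) * (1 / 2 - x j)).intervalIntegrable 0 1
  simp_rw [e]
  rw [intervalIntegral.integral_finsetSum]
  · rw [Finset.sum_div]
    refine Finset.sum_congr rfl fun i _ => ?_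
    rw [intervalIntegral.integral_finsetSum, Finset.sum_div]
    · exact Finset.sum_congr rfl fun j _ =>
        integral_cen_mul _ _ (hx i).1 (hx i).2 (hx j).1 (hx j).2
    · exact fun j _ => hint i j
  · intro i _
    have := IntervalIntegrable.sum (Finset.univ : Finset ι) (f := fun j => fun t =>
      cen (x i) t * cen (x j) t) (fun j _ => hint i j)
    have e2 : (fun t => ∑ j, cen (x i) t * cen (x j) t) =
        ∑ j, fun t => cen (x i) t * cen (x j) t := by
      funext t
      simp
    rw [e2]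
    exact this

theorem hasSum_cos (u : ℝ) (h0 : 0 ≤ u) (h1 : u ≤ 1) :
    HasSum (fun n : ℕ => 1 / (n : ℝ) ^ 2 * Real.cos (2 * π * n * u)) (π ^ 2 * B2 u) := by
  have h := hasSum_one_div_nat_pow_mul_cos (k := 1) one_ne_zero (x := u) ⟨h0, h1⟩
  convert h using 1
  have : Polynomial.bernoulli 2 = Polynomial.X ^ 2 - Polynomial.X + Polynomial.C (1 / 6 : ℚ) := by
    ext i
    rw [Polynomial.coeff_bernoulli]
    rcases i with _ | _ | _ | i
    · simp [bernoulli_two, Polynomial.coeff_X, Polynomial.coeff_C]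
    · simp [bernoulli_one, Polynomial.coeff_X, Polynomial.coeff_X_pow]
    · simp [Polynomial.coeff_X, Polynomial.coeff_X_pow]
    · simp [Polynomial.coeff_X, Polynomial.coeff_X_pow]
  have e2 : (Polynomial.map (algebraMap ℚ ℝ) (Polynomial.bernoulli (2 * 1))).eval u = B2 u := by
    rw [mul_one, this]
    simp [B2]
  rw [e2]
  simp only [mul_one, Nat.factorial_two, Nat.cast_ofNat]
  ring

/-- exponential sum -/
def S (x : ι → ℝ) (k : ℕ) : ℂ := ∑ i, Complex.exp ((2 * π * k * x i : ℝ) * Complex.I)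

theorem norm_S_sq (x : ι → ℝ) (k : ℕ) :
    ‖S x k‖ ^ 2 = ∑ i, ∑ j, Real.cos (2 * π * k * |x i - x j|) := by
  rw [← Complex.normSq_eq_norm_sq, Complex.normSq_apply]
  unfold S
  rw [Complex.re_sum, Complex.im_sum]
  simp_rw [Complex.exp_ofReal_mul_I_re, Complex.exp_ofReal_mul_I_im]
  rw [Finset.sum_mul_sum, Finset.sum_mul_sum, ← Finset.sum_add_distrib]
  refine Finset.sum_congr rfl fun i _ => ?_
  rw [← Finset.sum_add_distrib]
  refine Finset.sum_congr rfl fun j _ => ?_
  rw [← Real.cos_sub]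
  rcases le_total 0 (x i - x j) with h | h
  · rw [abs_of_nonneg h]; congr 1; ring
  · rw [abs_of_nonpos h, ← Real.cos_neg]; congr 1; ring

theorem sum_S_le (x : ι → ℝ) (hx : ∀ i, 0 ≤ x i ∧ x i ≤ 1) (T : Finset ℕ) :
    ∑ k ∈ T, 1 / (k : ℝ) ^ 2 * ‖S x k‖ ^ 2 ≤ π ^ 2 * ∑ i, ∑ j, B2 |x i - x j| := by
  have h : HasSum (fun k : ℕ => 1 / (k : ℝ) ^ 2 * ‖S x k‖ ^ 2)
      (π ^ 2 * ∑ i, ∑ j, B2 |x i - x j|) := by
    have e : (fun k : ℕ => 1 / (k : ℝ) ^ 2 * ‖S x k‖ ^ 2) = fun k : ℕ =>
        ∑ i, ∑ j, 1 / (k : ℝ) ^ 2 * Real.cos (2 * π * k * |x i - x j|) := by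
      funext k
      rw [norm_S_sq, Finset.mul_sum]
      exact Finset.sum_congr rfl fun i _ => Finset.mul_sum _ _ _
    rw [e, Finset.mul_sum]
    refine hasSum_sum fun i _ => ?_
    rw [Finset.mul_sum]
    refine hasSum_sum fun j _ => ?_
    refine hasSum_cos _ (abs_nonneg _) ?_
    rw [abs_le]
    constructor <;> linarith [(hx i).1, (hx i).2, (hx j).1, (hx j).2]
  exact sum_le_hasSum T (fun k _ => by positivity) h

end

end Pool.Agent.H159.ZD
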