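import Pool.Agent.H159.ZD.Circle

/-! Mean of `log⁺ |f|` and the angular discrepancy of the zeros of `f`. -/

set_option autoImplicit false

open MeasureTheory Real Finset Polynomial

namespace Pool.Agent.H159.ZD

noncomputable section

variable {ι : Type*} [Fintype ι]

/-- The angle of a complex number, divided by `2π`, in `[0, 1)`. -/
def ang (z : ℂ) : ℝ := Int.fract (Complex.arg z / (2 * π))

theorem ang_nonneg (z : ℂ) : 0 ≤ ang z := Int.fract_nonneg _
theorem ang_lt_one (z : ℂ) : ang z < 1 := Int.fract_lt_one _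

/-- `exp (2 π i ang z)` -/
def dir (z : ℂ) : ℂ := Complex.exp ((2 * π * ang z : ℝ) * Complex.I)

theorem norm_dir (z : ℂ) : ‖dir z‖ = 1 := Complex.norm_exp_ofReal_mul_I _

theorem dir_eq (z : ℂ) : dir z = Complex.exp (Complex.arg z * Complex.I) := by
  unfold dir ang
  have h : (2 * π * Int.fract (Complex.arg z / (2 * π)) : ℝ) =
      Complex.arg z - ⌊Complex.arg z / (2 * π)⌋ * (2 * π) := by
    rw [← Int.self_sub_floor]
    field_simp
  rw [h]
  push_cast
  rw [sub_mul, Complex.exp_sub]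
  have : Complex.exp (↑⌊Complex.arg z / (2 * π)⌋ * (2 * ↑π) * Complex.I) = 1 := by
    have := Complex.exp_int_mul_two_pi_mul_I ⌊Complex.arg z / (2 * π)⌋
    rw [← this]; congr 1; ring
  rw [this, div_one]

theorem eq_norm_mul_dir (z : ℂ) : z = (‖z‖ : ℂ) * dir z := by
  rw [dir_eq, Complex.norm_mul_exp_arg_mul_I]

/-- `log |z - r e|` for unimodular `z`, `e` -/
theorem log_norm_eq (z e : ℂ) (hz : ‖z‖ = 1) (he : ‖e‖ = 1) (r : ℝ) (hr : 0 < r)
    (hne : z ≠ r * e) :
    Real.log ‖z - r * e‖ = 1 / 2 * Real.log r +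
      1 / 2 * Real.log (r + 1 / r - 2 * (z * starRingEnd ℂ e).re) ∧
    0 < r + 1 / r - 2 * (z * starRingEnd ℂ e).re := by
  have h1 : ‖z - r * e‖ ^ 2 = r * (r + 1 / r - 2 * (z * starRingEnd ℂ e).re) := by
    rw [← Complex.normSq_eq_norm_sq, Complex.normSq_sub]
    have e1 : Complex.normSq z = 1 := by rw [Complex.normSq_eq_norm_sq, hz]; norm_num
    have e2 : Complex.normSq (r * e) = r ^ 2 := by
      rw [Complex.normSq_eq_norm_sq, norm_mul, he, Complex.norm_real, mul_one, Real.norm_eq_abs,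
        sq_abs]
    have e3 : (z * starRingEnd ℂ (r * e)).re = r * (z * starRingEnd ℂ e).re := by
      rw [map_mul, Complex.conj_ofReal, mul_left_comm, Complex.re_ofReal_mul]
    rw [e1, e2, e3]
    field_simp
    ring
  have h2 : 0 < ‖z - r * e‖ := norm_pos_iff.2 (sub_ne_zero.2 hne)
  have h3 : 0 < r * (r + 1 / r - 2 * (z * starRingEnd ℂ e).re) := by
    rw [← h1]; positivity
  have h4 : 0 < r + 1 / r - 2 * (z * starRingEnd ℂ e).re := by
    by_contra h
    push Not at h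
    nlinarith
  refine ⟨?_, h4⟩
  have h5 : Real.log (‖z - r * e‖ ^ 2) = Real.log r +
      Real.log (r + 1 / r - 2 * (z * starRingEnd ℂ e).re) := by
    rw [h1, Real.log_mul hr.ne' h4.ne']
  rw [Real.log_pow] at h5
  push_cast at h5
  linarith

/-- the difference of two normalised logarithms -/
def uu (α : ℂ) (ρ : ℝ) (z : ℂ) : ℝ :=
  Real.log ‖z - α‖ - 1 / 2 * Real.log ‖α‖ - (Real.log ‖z - ρ * dir α‖ - 1 / 2 * Real.log ρ)

open Classical in
/-- majorant of `uu` -/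
def vv (α : ℂ) (ρ : ℝ) (z : ℂ) : ℝ :=
  if ρ + 1 / ρ ≤ ‖α‖ + 1 / ‖α‖ then uu α ρ z else 0

theorem uu_eq (α z : ℂ) (hα : α ≠ 0) (hz : ‖z‖ = 1) (hne : z ≠ α) (ρ : ℝ) (h0 : 0 < ρ)
    (h1 : ρ < 1) : ∃ c : ℝ, uu α ρ z = 1 / 2 * Real.log (‖α‖ + 1 / ‖α‖ - 2 * c) -
      1 / 2 * Real.log (ρ + 1 / ρ - 2 * c) ∧ 0 < ‖α‖ + 1 / ‖α‖ - 2 * c ∧
      0 < ρ + 1 / ρ - 2 * c := by
  have hn : 0 < ‖α‖ := norm_pos_iff.2 hα
  obtain ⟨e1, p1⟩ := log_norm_eq z (dir α) hz (norm_dir α) ‖α‖ hn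
    (by rw [← eq_norm_mul_dir]; exact hne)
  obtain ⟨e2, p2⟩ := log_norm_eq z (dir α) hz (norm_dir α) ρ h0 (by
    intro h
    have := congrArg norm h
    rw [hz, norm_mul, norm_dir, mul_one, Complex.norm_real, Real.norm_eq_abs,
      abs_of_pos h0] at this
    linarith)
  refine ⟨_, ?_, p1, p2⟩
  unfold uu
  rw [← eq_norm_mul_dir] at e1
  rw [e1, e2]
  ring

theorem vv_nonneg (α z : ℂ) (hα : α ≠ 0) (hz : ‖z‖ = 1) (ρ : ℝ) (h0 : 0 < ρ) (h1 : ρ < 1) :
    0 ≤ vv α ρ z := by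
  unfold vv
  split_ifs with h
  · have hne : z ≠ α := by
      rintro rfl
      rw [hz] at h
      have h2 : ρ + 1 / ρ - 2 = (1 - ρ) ^ 2 / ρ := by field_simp; ring
      have h3 : 0 < (1 - ρ) ^ 2 / ρ := by
        have : 0 < 1 - ρ := by linarith
        positivity
      linarith
    obtain ⟨c, e, p1, p2⟩ := uu_eq α z hα hz hne ρ h0 h1
    rw [e]
    have := Real.log_le_log p2 (by linarith : ρ + 1 / ρ - 2 * c ≤ ‖α‖ + 1 / ‖α‖ - 2 * c)
    linarith
  · exact le_rfl

theorem uu_le_vv (α z : ℂ) (hα : α ≠ 0) (hz : ‖z‖ = 1) (hne : z ≠ α) (ρ : ℝ) (h0 : 0 < ρ)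
    (h1 : ρ < 1) : uu α ρ z ≤ vv α ρ z := by
  unfold vv
  split_ifs with h
  · exact le_rfl
  · obtain ⟨c, e, p1, p2⟩ := uu_eq α z hα hz hne ρ h0 h1
    rw [e]
    have := Real.log_le_log p1 (by linarith : ‖α‖ + 1 / ‖α‖ - 2 * c ≤ ρ + 1 / ρ - 2 * c)
    linarith

theorem uu_int (α : ℂ) (ρ : ℝ) : CircleIntegrable (uu α ρ) 0 1 := by
  unfold uu
  exact ((circleIntegrable_log_norm_sub_const 1).sub (circleIntegrable_const _ _ _)).sub
    ((circleIntegrable_log_norm_sub_const 1).sub (circleIntegrable_const _ _ _))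

theorem vv_int (α : ℂ) (ρ : ℝ) : CircleIntegrable (vv α ρ) 0 1 := by
  unfold vv
  by_cases h : ρ + 1 / ρ ≤ ‖α‖ + 1 / ‖α‖
  · simp only [if_pos h]; exact uu_int α ρ
  · simp only [if_neg h]; exact circleIntegrable_const _ _ _

theorem avg_vv (α : ℂ) (ρ : ℝ) (h0 : 0 < ρ) (h1 : ρ < 1) :
    circleAverage (vv α ρ) 0 1 ≤ 1 / 2 * |Real.log ‖α‖| := by
  unfold vv
  by_cases h : ρ + 1 / ρ ≤ ‖α‖ + 1 / ‖α‖
  · simp only [if_pos h]
    have e : uu α ρ = fun z => (Real.log ‖z - α‖ - 1 / 2 * Real.log ‖α‖) -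
      (Real.log ‖z - ρ * dir α‖ - 1 / 2 * Real.log ρ) := rfl
    have i1 : CircleIntegrable (fun z : ℂ => Real.log ‖z - α‖) 0 1 :=
      circleIntegrable_log_norm_sub_const 1
    have i2 : CircleIntegrable (fun z : ℂ => Real.log ‖z - ρ * dir α‖) 0 1 :=
      circleIntegrable_log_norm_sub_const 1
    have hc : ∀ c : ℝ, CircleIntegrable (fun _ : ℂ => c) 0 1 := fun c =>
      circleIntegrable_const _ _ _
    have i3 : CircleIntegrable (fun z : ℂ => Real.log ‖z - α‖ - 1 / 2 * Real.log ‖α‖) 0 1 :=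
      i1.sub (hc _)
    have i4 : CircleIntegrable (fun z : ℂ => Real.log ‖z - ρ * dir α‖ - 1 / 2 * Real.log ρ) 0 1 :=
      i2.sub (hc _)
    show circleAverage (uu α ρ) 0 1 ≤ _
    rw [e, circleAverage_fun_sub i3 i4,
      circleAverage_fun_sub i1 (hc _), circleAverage_fun_sub i2 (hc _), circleAverage_const,
      circleAverage_const, circleAverage_log_norm_sub_const_eq_posLog,
      circleAverage_log_norm_sub_const_eq_posLog]
    have h2 : ‖(ρ : ℂ) * dir α‖ = ρ := by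
      rw [norm_mul, norm_dir, mul_one, Complex.norm_real, Real.norm_eq_abs, abs_of_pos h0]
    rw [h2, ← Real.half_mul_log_add_log_abs, ← Real.half_mul_log_add_log_abs]
    have := abs_nonneg (Real.log ρ)
    linarith
  · simp only [if_neg h]
    rw [circleAverage_const]
    positivity

/-- **Main inequality** for a finite family of nonzero complex numbers. -/
theorem posLog_avg_le (a : ℂ) (ha : a ≠ 0) (α : ι → ℂ) (hα : ∀ i, α i ≠ 0)
    (h0 : 0 ≤ Real.log ‖a‖ + 1 / 2 * ∑ i, Real.log ‖α i‖) :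
    circleAverage (fun z => Real.posLog ‖a * ∏ i, (z - α i)‖) 0 1 ≤
      Real.log ‖a‖ + ∑ i, Real.posLog ‖α i‖ +
        √(π ^ 2 * ∑ i, ∑ j, B2 |ang (α i) - ang (α j)|) := by
  set Q := π ^ 2 * ∑ i, ∑ j, B2 |ang (α i) - ang (α j)| with hQ
  apply le_of_forall_pos_le_add
  intro ε hε
  -- choose the radius
  obtain ⟨lam, hlam, hle⟩ : ∃ lam : ℝ, 0 < lam ∧ Fintype.card ι * (1 / 2 * lam) ≤ ε := by
    refine ⟨2 * ε / (Fintype.card ι + 1), by positivity, ?_⟩
    have : (0:ℝ) < Fintype.card ι + 1 := by positivity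
    rw [show (Fintype.card ι : ℝ) * (1 / 2 * (2 * ε / (Fintype.card ι + 1))) =
      ε * (Fintype.card ι / (Fintype.card ι + 1)) by ring]
    have h2 : (Fintype.card ι : ℝ) / (Fintype.card ι + 1) ≤ 1 := by
      rw [div_le_one this]; linarith
    nlinarith
  set ρ := Real.exp (-lam) with hρ
  have hρ0 : 0 < ρ := Real.exp_pos _
  have hρ1 : ρ < 1 := by rw [hρ, Real.exp_lt_one_iff]; linarith
  have hlogρ : Real.log ρ = -lam := Real.log_exp _
  set β : ι → ℂ := fun i => (ρ : ℂ) * dir (α i) with hβ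
  have hβn : ∀ i, ‖β i‖ = ρ := by
    intro i
    rw [hβ]
    simp only
    rw [norm_mul, norm_dir, mul_one, Complex.norm_real, Real.norm_eq_abs, abs_of_pos hρ0]
  have hF := avg_abs_le β ρ hρ0.le hρ1 (fun i => (hβn i).le) Q (by
    intro T
    refine le_trans (Finset.sum_le_sum fun k _ => ?_) (sum_S_le (fun i => ang (α i))
      (fun i => ⟨ang_nonneg _, (ang_lt_one _).le⟩) T)
    have e : ‖∑ i, (starRingEnd ℂ (β i)) ^ k‖ = ρ ^ k * ‖S (fun i => ang (α i)) k‖ := by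
      have e1 : ∑ i, (starRingEnd ℂ (β i)) ^ k = starRingEnd ℂ ((ρ:ℂ) ^ k *
          S (fun i => ang (α i)) k) := by
        unfold S
        rw [Finset.mul_sum, map_sum]
        refine Finset.sum_congr rfl fun i _ => ?_
        rw [← map_pow]
        congr 1
        rw [hβ]
        simp only
        rw [mul_pow]
        congr 1
        unfold dir
        rw [← Complex.exp_nat_mul]
        congr 1
        push_cast
        ring
      rw [e1, RCLike.norm_conj, norm_mul, norm_pow, Complex.norm_real, Real.norm_eq_abs,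
        abs_of_pos hρ0]
    rw [e]
    have h1 : ρ ^ k ≤ 1 := pow_le_one₀ hρ0.le hρ1.le
    have h2 : ρ ^ k * ‖S (fun i => ang (α i)) k‖ ≤ ‖S (fun i => ang (α i)) k‖ :=
      mul_le_of_le_one_left (norm_nonneg _) h1
    gcongr)
  have i1 : CircleIntegrable (fun z => |∑ i, Real.log ‖z - β i‖|) 0 1 := by
    apply CircleIntegrable.abs
    exact CircleIntegrable.fun_sum _ fun i _ => circleIntegrable_log_norm_sub_const 1
  have i2 : CircleIntegrable (fun z => ∑ i, vv (α i) ρ z) 0 1 :=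
    CircleIntegrable.fun_sum _ fun i _ => vv_int (α i) ρ
  have i0 : CircleIntegrable (fun z => Real.posLog ‖a * ∏ i, (z - α i)‖) 0 1 := by
    have hm : MeromorphicOn (fun z : ℂ => a * ∏ i, (z - α i)) (Metric.sphere 0 |1|) := by
      intro z _
      fun_prop
    exact hm.circleIntegrable_posLog_norm
  set C0 := Real.log ‖a‖ + 1 / 2 * ∑ i, Real.log ‖α i‖ + Fintype.card ι * (1 / 2 * lam) with hC0
  have hC : CircleIntegrable (fun _ : ℂ => C0) 0 1 := circleIntegrable_const _ _ _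
  have hpt : ∀ z ∈ Metric.sphere (0:ℂ) |1|, Real.posLog ‖a * ∏ i, (z - α i)‖ ≤
      C0 + (∑ i, vv (α i) ρ z + |∑ i, Real.log ‖z - β i‖|) := by
    intro z hz
    have hz1 : ‖z‖ = 1 := by simpa using hz
    have hC00 : 0 ≤ C0 := by rw [hC0]; positivity
    have hv : 0 ≤ ∑ i, vv (α i) ρ z :=
      Finset.sum_nonneg fun i _ => vv_nonneg (α i) z (hα i) hz1 ρ hρ0 hρ1
    have habs := abs_nonneg (∑ i, Real.log ‖z - β i‖)
    have hpl : Real.posLog ‖a * ∏ i, (z - α i)‖ = max 0 (Real.log ‖a * ∏ i, (z - α i)‖) := rfl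
    rw [hpl]
    apply max_le (by linarith)
    by_cases hall : ∀ i, z ≠ α i
    · rw [norm_mul, norm_prod, Real.log_mul (norm_ne_zero_iff.2 ha)
        (Finset.prod_ne_zero_iff.2 fun i _ => norm_ne_zero_iff.2 (sub_ne_zero.2 (hall i))),
        Real.log_prod (fun i _ => norm_ne_zero_iff.2 (sub_ne_zero.2 (hall i)))]
      have h3 : ∑ i, Real.log ‖z - α i‖ = ∑ i, uu (α i) ρ z + 1 / 2 * ∑ i, Real.log ‖α i‖ +
          ∑ i, Real.log ‖z - β i‖ + Fintype.card ι * (1 / 2 * lam) := by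
        rw [Finset.mul_sum, ← Finset.sum_add_distrib, ← Finset.sum_add_distrib,
          ← nsmul_eq_mul, ← Finset.card_univ, ← Finset.sum_const, ← Finset.sum_add_distrib]
        refine Finset.sum_congr rfl fun i _ => ?_
        unfold uu
        rw [hlogρ]
        ring
      have h4 : ∑ i, uu (α i) ρ z ≤ ∑ i, vv (α i) ρ z :=
        Finset.sum_le_sum fun i _ => uu_le_vv (α i) z (hα i) hz1 (hall i) ρ hρ0 hρ1
      have h5 := le_abs_self (∑ i, Real.log ‖z - β i‖)
      rw [h3, hC0]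
      linarith
    · push Not at hall
      obtain ⟨i, hi⟩ := hall
      have : ∏ i, (z - α i) = 0 := Finset.prod_eq_zero (Finset.mem_univ i) (by rw [hi, sub_self])
      rw [this]
      simp only [mul_zero, norm_zero, Real.log_zero]
      linarith
  have i3 : CircleIntegrable (fun z => ∑ i, vv (α i) ρ z + |∑ i, Real.log ‖z - β i‖|) 0 1 :=
    i2.add i1
  have i4 : CircleIntegrable (fun z => C0 + (∑ i, vv (α i) ρ z + |∑ i, Real.log ‖z - β i‖|)) 0 1 :=
    hC.add i3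
  have hmono := circleAverage_mono i0 i4 hpt
  have e1 : circleAverage (fun z => C0 + (∑ i, vv (α i) ρ z + |∑ i, Real.log ‖z - β i‖|)) 0 1 =
      C0 + (∑ i, circleAverage (vv (α i) ρ) 0 1 +
        circleAverage (fun z => |∑ i, Real.log ‖z - β i‖|) 0 1) := by
    rw [circleAverage_fun_add hC i3, circleAverage_const, circleAverage_fun_add i2 i1,
      circleAverage_fun_sum fun i _ => vv_int (α i) ρ]
  have h6 : ∑ i, circleAverage (vv (α i) ρ) 0 1 ≤ ∑ i, 1 / 2 * |Real.log ‖α i‖| :=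
    Finset.sum_le_sum fun i _ => avg_vv (α i) ρ hρ0 hρ1
  have h7 : ∑ i, Real.posLog ‖α i‖ = 1 / 2 * ∑ i, Real.log ‖α i‖ +
      ∑ i, 1 / 2 * |Real.log ‖α i‖| := by
    rw [Finset.mul_sum, ← Finset.sum_add_distrib]
    refine Finset.sum_congr rfl fun i _ => ?_
    rw [← Real.half_mul_log_add_log_abs]
    ring
  refine hmono.trans ?_
  rw [e1, h7, hC0]
  linarith

end

end Pool.Agent.H159.ZD
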